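import Pool.Agent.Lib.MP_4aeb90_al.Defs
import Pool.Agent.Lib.MP_4aeb90_al.Example

/-!
# Simple tensor powers of non-invertible objects in fusion categories

We answer the question in the negative: for every `N` there are a fusion category `C` over `ℂ`
and a simple object `X` of Frobenius-Perron dimension `2` (in particular `X` is not
invertible) such that `X ^ ⊗ M` is simple for all `M ≤ N`.

The category is the crossed product of the representation category of `D ^ (N + 1)`, where `D`
is the dihedral group of order `8`, by the cyclic group of order `N + 1` permuting the factors,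
realised as a category of graded representations with a twisted tensor product; the object `X`
is the two-dimensional irreducible representation of one factor placed in degree `1`.
-/

open CategoryTheory MonoidalCategory Limits

namespace Pool.Agent.Results.MP_4aeb90_al.UnboundedSimplePowers

open Pool.Agent.Lib.MP_4aeb90_al

/-- The crossed product is a fusion category. -/
theorem isFusion (G K : Type) [AddCommGroup G] [Fintype G] [DecidableEq G] [Group K]
    [Finite K] : IsFusionCategory (CRep G K) where
  simple_unit := CRep.simple_unit G K
  finiteDimensional_hom := inferInstance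
  semisimple := CRep.exists_decomp
  finite_simples := by
    obtain ⟨n, S, -, h⟩ := CRep.exists_simples G K
    exact ⟨n, S, h⟩

/-- For every `N` there are a fusion category and a simple object of Frobenius-Perron dimension
`2`, which is not invertible, all of whose tensor powers up to the `N`-th are simple. -/
theorem result (N : ℕ) :
    ∃ (C : Type 1) (_ : Category.{0} C) (_ : Abelian C) (_ : Linear ℂ C)
      (_ : MonoidalCategory C) (_ : MonoidalPreadditive C) (_ : MonoidalLinear ℂ C)
      (_ : RigidCategory C) (_ : IsFusionCategory C) (X : C),
      Simple X ∧ FPdim X = 2 ∧ (¬ ∃ Y : C, Nonempty (X ⊗ Y ≅ 𝟙_ C)) ∧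
      ∀ M : ℕ, M ≤ N → Simple (tensorPower X M) := by
  refine ⟨CRep (ZMod (N + 1)) (DihedralGroup 4), inferInstance, inferInstance, inferInstance,
    inferInstance, inferInstance, inferInstance, inferInstance, isFusion _ _,
    CRep.base (N + 1), ?_, ?_, ?_, ?_⟩
  · have h1 : Simple (𝟙_ (CRep (ZMod (N + 1)) (DihedralGroup 4)) ⊗ CRep.base (N + 1)) :=
      CRep.simple_tpow_base (N + 1) 1 (by omega)
    exact Simple.of_iso (λ_ (CRep.base (N + 1))).symm
  · rw [CRep.FPdim_eq]
    have : Module.finrank ℂ (CRep.base (N + 1)).V = 2 := Module.finrank_fin_fun ℂ
    rw [this]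
    norm_num
  · rintro ⟨Y, ⟨e⟩⟩
    have h := CRep.finrank_iso e
    have h1 : Module.finrank ℂ (CRep.base (N + 1) ⊗ Y).V = 2 * Module.finrank ℂ Y.V := by
      have h2 : Module.finrank ℂ (TensorProduct ℂ (CRep.base (N + 1)).V Y.V) =
          Module.finrank ℂ (CRep.base (N + 1)).V * Module.finrank ℂ Y.V :=
        Module.finrank_tensorProduct
      have h3 : Module.finrank ℂ (CRep.base (N + 1)).V = 2 := Module.finrank_fin_fun ℂ
      rw [h3] at h2
      exact h2
    have h4 : Module.finrank ℂ (𝟙_ (CRep (ZMod (N + 1)) (DihedralGroup 4))).V = 1 :=
      Module.finrank_self ℂ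
    omega
  · intro M hM
    exact CRep.simple_tpow_base (N + 1) M (by omega)

end Pool.Agent.Results.MP_4aeb90_al.UnboundedSimplePowers
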